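import Mathlib
import Pool.Agent.H436R3.Fol.Val
import Pool.Agent.H436R3.Fol.Defs

/-!
# Adjoint foliated structures on surfaces projective over an affine base
-/

set_option autoImplicit false

namespace Pool.Agent.H436R3.Adj

open Pool.Agent.H436R3.Fol

variable {K : Type} [Field K] [Algebra ℂ K]

/-- The two valuations agree. -/
def Same (v w : DVal K) : Prop := ∀ f : K, f ≠ 0 → v.ord f = w.ord f

/-- The `i`-th chart `A [y_0 / y_i, ..., y_n / y_i]`. -/
def chartOf (A : Subalgebra ℂ K) {n : ℕ} (y : Fin (n + 1) → K) (i : Fin (n + 1)) :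
    Subalgebra ℂ K :=
  A ⊔ Algebra.adjoin ℂ (Set.range fun j => y j / y i)

/-- A contraction `f : X → Z` with `Z = Spec A` affine, of a normal variety `X` with function field
`K`: `X` is the image of `(y_0 : ... : y_n)` in the projective space over `Z`, covered by the
spectra of the charts `A [y_0 / y_i, ..., y_n / y_i]`, and `f_* O_X = O_Z`. -/
structure Contraction (K : Type) [Field K] [Algebra ℂ K] where
  A : Subalgebra ℂ K
  fg : A.FG
  n : ℕ
  y : Fin (n + 1) → K
  ne : ∀ i, y i ≠ 0
  frac : ∀ f : K, ∃ a b : K, a ∈ chartOf A y 0 ∧ b ∈ chartOf A y 0 ∧ b ≠ 0 ∧ f * b = a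
  normal : ∀ i f, IsIntegral (chartOf A y i) f → f ∈ chartOf A y i
  global : ∀ f, (∀ i, f ∈ chartOf A y i) → f ∈ A

/-- The coordinate ring of the `i`-th chart of `X`. -/
def Contraction.chart (X : Contraction K) (i : Fin (X.n + 1)) : Subalgebra ℂ K :=
  chartOf X.A X.y i

/-- `v` is the valuation of a prime divisor on `X`. -/
def IsDivisorOn (X : Contraction K) (v : DVal K) : Prop := ∃ i, IsLocalRing' (X.chart i) v

/-- `v` is the valuation of a prime divisor over `X`, that is, on some normal variety with a proper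
birational morphism to `X`. -/
def IsDivisorOver (X : Contraction K) (v : DVal K) : Prop :=
  ∃ i, ∃ S : Subalgebra ℂ K, S.FG ∧ X.chart i ≤ S ∧ IsLocalRing' S v

/-- The centre on `X` of `v` contains the closed point of the `i`-th chart given by `P`. -/
def Through (X : Contraction K) (v : DVal K) (i : Fin (X.n + 1)) (P : Ideal (X.chart i)) : Prop :=
  (∀ f ∈ X.chart i, v.Reg f) ∧ ∀ f : X.chart i, v.Pos (f : K) → f ∈ P

/-- The prime divisor `v` dominates `Z`. -/
def IsHorizontal (X : Contraction K) (v : DVal K) : Prop := ∀ a ∈ X.A, v.Pos a → a = 0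

/-- A divisor with real coefficients: `∑ c_i E_i`. -/
structure RDiv (K : Type) [Field K] [Algebra ℂ K] where
  m : ℕ
  E : Fin m → DVal K
  c : Fin m → ℝ

open Classical in
/-- The multiplicity of a divisor at `v`. -/
noncomputable def RDiv.mult (B : RDiv K) (v : DVal K) : ℝ :=
  ∑ i, if Same (B.E i) v then B.c i else 0

variable {r d : ℕ}

/-- `μ` is the multiplicity of `t K_F + (1 - t) K_X + B^ninv + (1 - t) B^inv` at the prime divisor
`v`. Here `T` is the tangent sheaf of `X`. -/
def IsAdjMult (F : Foliation K r) (T : Foliation K d) (B : RDiv K) (t : ℝ) (v : DVal K)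
    (μ : ℝ) : Prop :=
  ∃ a b : ℤ, IsCanOrd F v a ∧ IsCanOrd T v b ∧
    μ = t * a + (1 - t) * b + (eps F v + (1 - t) * (1 - eps F v)) * B.mult v

/-- `(X, F, B^ninv + (1 - t) B^inv, t)` is an lc adjoint foliated structure: the divisor
`t K_F + (1 - t) K_X + B^ninv + (1 - t) B^inv` is locally a real linear combination `∑ ρ_j div (g_j)`
of principal divisors, and for every prime divisor `v` over `X` the multiplicity
`∑ ρ_j v (g_j) - (t K_F + (1 - t) K)_v` of `Δ_Y` is at most `t ε_F(v) + (1 - t)`. -/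
def IsLC (X : Contraction K) (F : Foliation K r) (T : Foliation K d) (B : RDiv K) (t : ℝ) : Prop :=
  ∀ (i : Fin (X.n + 1)) (P : Ideal (X.chart i)), P.IsMaximal →
    ∃ (n : ℕ) (ρ : Fin n → ℝ) (g : Fin n → K), (∀ j, g j ≠ 0) ∧
      (∀ v, IsDivisorOn X v → Through X v i P →
        IsAdjMult F T B t v (∑ j, ρ j * (v.ord (g j) : ℝ))) ∧
      ∀ v, IsDivisorOver X v → Through X v i P → ∃ a b : ℤ, IsCanOrd F v a ∧ IsCanOrd T v b ∧
        ∑ j, ρ j * (v.ord (g j) : ℝ) - (t * a + (1 - t) * b) ≤ t * eps F v + (1 - t)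

/-- The divisor with multiplicities `c v` is Cartier. -/
def IsCartier (X : Contraction K) (c : DVal K → ℤ) : Prop :=
  ∀ (i : Fin (X.n + 1)) (P : Ideal (X.chart i)), P.IsMaximal →
    ∃ g : K, g ≠ 0 ∧ ∀ v, IsDivisorOn X v → Through X v i P → c v = v.ord g

/-- `res` is the residue map from the valuation ring of `v` to its residue field `κ`. (Its values
outside the valuation ring are meaningless.) -/
structure Residue (v : DVal K) (κ : Type) [Field κ] [Algebra ℂ κ] where
  res : K → κ
  add : ∀ f g, v.Reg f → v.Reg g → res (f + g) = res f + res g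
  mul : ∀ f g, v.Reg f → v.Reg g → res (f * g) = res f * res g
  const : ∀ c : ℂ, res (algebraMap ℂ K c) = algebraMap ℂ κ c
  surj : ∀ x : κ, ∃ f, v.Reg f ∧ res f = x
  zero : ∀ f, v.Reg f → (res f = 0 ↔ v.Pos f)

variable {v : DVal K} {κ : Type} [Field κ] [Algebra ℂ κ]

/-- Let `v` be a curve on the surface `X`, contracted by `f`, and let `w` be a place of its function
field, with centre `P` on `X`. Near `P`, the divisor `c + div (h)` is the divisor of a function `g`,
whose restriction to the curve has order `e` at `w`. (The point `P` lies in the `i`-th chart, and the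
prime divisor `u` passes through it.) -/
def IsLocalMult (X : Contraction K) (R : Residue v κ) (c : DVal K → ℤ) (h : K) (w : DVal κ)
    (e : ℤ) : Prop :=
  ∃ g : K, g ≠ 0 ∧ (∀ u i, IsDivisorOn X u → (∀ f ∈ X.chart i, v.Reg f ∧ w.Reg (R.res f)) →
    (∀ f ∈ X.chart i, u.Reg f ∧ (u.Pos f → w.Pos (R.res f))) → c u + u.ord h = u.ord g) ∧
    e = w.ord (R.res g)

/-- The degree of the Cartier divisor `c` on the curve `v` is `δ`: for a rational function `h` such
that the curve is not a component of `c + div (h)`, the integer `δ` is the sum of the local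
multiplicities of the restriction of this divisor to the curve, over all places of the curve, which
are given by their valuation rings. -/
def IsDegree (X : Contraction K) (R : Residue v κ) (c : DVal K → ℤ) (δ : ℤ) : Prop :=
  ∃ h : K, h ≠ 0 ∧ c v + v.ord h = 0 ∧ ∃ e : Subring κ → ℤ, (Function.support e).Finite ∧
    (∀ V, e V ≠ 0 → ∃ w : DVal κ, w.O = V) ∧ (∀ w : DVal κ, IsLocalMult X R c h w (e w.O)) ∧
    δ = ∑ᶠ V, e V

/-- The curve `v` on the surface `X` is contracted to a point of `Z`. -/
def IsContracted (X : Contraction K) (v : DVal K) : Prop :=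
  ∀ a ∈ X.A, ∃ c : ℂ, v.Pos (a - algebraMap ℂ K c)

/-- The divisor with multiplicities `m v` on the surface `X` is numerically trivial over `Z`: it is a
real linear combination of Cartier divisors, and it has degree zero on every curve contracted by
`f`. -/
def IsNumTrivial (X : Contraction K) (m : DVal K → ℝ) : Prop :=
  ∃ (n : ℕ) (ρ : Fin n → ℝ) (c : Fin n → DVal K → ℤ), (∀ j, IsCartier X (c j)) ∧
    (∀ v, IsDivisorOn X v → m v = ∑ j, ρ j * (c j v : ℝ)) ∧
    ∀ v, IsDivisorOn X v → IsContracted X v →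
      ∀ (κ : Type) [Field κ] [Algebra ℂ κ] (R : Residue v κ),
        ∃ δ : Fin n → ℤ, (∀ j, IsDegree X R (c j) (δ j)) ∧ ∑ j, ρ j * (δ j : ℝ) = 0

/-- `t K_F + (1 - t) K_X + B^ninv + (1 - t) B^inv` is numerically trivial over `Z`. -/
def AdjTrivial (X : Contraction K) (F : Foliation K r) (T : Foliation K d) (B : RDiv K)
    (t : ℝ) : Prop :=
  ∃ m : DVal K → ℝ, (∀ v, IsDivisorOn X v → IsAdjMult F T B t v (m v)) ∧ IsNumTrivial X m

/-- The descending chain condition: there is no strictly decreasing infinite sequence. -/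
def SatisfiesDCC (Γ : Set ℝ) : Prop := ∀ x : ℕ → ℝ, (∀ n, x n ∈ Γ) → ¬ StrictAnti x

/-- The conclusion of the global ACC for surfaces, for the sets `Γ` and `Γ₀`. -/
def GlobalACC (Γ Γ₀ : Set ℝ) : Prop :=
  ∀ (K : Type) [Field K] [Algebra ℂ K] (X : Contraction K) (r : ℕ) (F : Foliation K r)
    (T : Foliation K 2) (B : RDiv K) (t : ℝ),
    Algebra.trdeg ℂ K = 2 → T.space = ⊤ → (∀ i, IsDivisorOn X (B.E i)) →
    (∀ i j, Same (B.E i) (B.E j) → i = j) → (∀ i, B.c i ∈ Γ) → t ∈ Γ →
    IsLC X F T B t → AdjTrivial X F T B t →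
    (∀ s, 0 ≤ s → s ≤ 1 → s ≠ t → ¬ AdjTrivial X F T B s) →
    t ∈ Γ₀ ∧ ∀ i, IsHorizontal X (B.E i) → B.c i ∈ Γ₀

end Pool.Agent.H436R3.Adj
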