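import Mathlib
import Pool.Agent.H436R3.Fol.Val
import Pool.Agent.H436R3.Fol.LogDer
import Pool.Agent.H135R2.VS.Der

/-!
# Rational functions in two variables
-/

set_option autoImplicit false

namespace Pool.Agent.H436R3.Adj

open MvPolynomial Pool.Agent.H436R3.Fol

/-- The polynomial ring in two variables. -/
abbrev Q2 : Type := MvPolynomial (Fin 2) ℂ

/-- The field of rational functions in two variables. -/
abbrev K2 : Type := FractionRing Q2

/-- The inclusion. -/
noncomputable def jo : Q2 →ₐ[ℂ] K2 := IsScalarTower.toAlgHom ℂ Q2 K2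

theorem jo_apply (q : Q2) : jo q = algebraMap Q2 K2 q := rfl

theorem jo_inj : Function.Injective jo := IsFractionRing.injective Q2 K2

/-- The variables. -/
noncomputable def xx : Fin 2 → K2 := fun i => jo (X i)

theorem xx_ne (i : Fin 2) : xx i ≠ 0 := (map_ne_zero_iff jo jo_inj).2 (X_ne_zero _)

theorem jo_C (c : ℂ) : jo (C c) = algebraMap ℂ K2 c := by
  rw [← MvPolynomial.algebraMap_eq]
  exact jo.commutes c

theorem aeval_xx : (aeval xx : Q2 →ₐ[ℂ] K2) = jo := by
  apply MvPolynomial.algHom_ext
  intro i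
  rw [aeval_X]
  rfl

theorem algInd_xx : AlgebraicIndependent ℂ xx := by
  rw [algebraicIndependent_iff_injective_aeval, aeval_xx]
  exact jo_inj

theorem exists_th (i : Fin 2) : ∃ D : Derivation ℂ K2 K2,
    ∀ j, D (xx j) = if i = j then xx j else 0 :=
  Pool.Agent.H135R2.VS.exists_der algInd_xx _

/-- The logarithmic vector fields. -/
noncomputable def th (i : Fin 2) : Derivation ℂ K2 K2 := (exists_th i).choose

theorem th_xx (i j : Fin 2) : th i (xx j) = if i = j then xx j else 0 := (exists_th i).choose_spec j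

theorem der_ext2 {D D' : Derivation ℂ K2 K2} (h : ∀ i, D (xx i) = D' (xx i)) : D = D' := by
  have h1 : ∀ q : Q2, D (jo q) = D' (jo q) := by
    intro q
    induction q using MvPolynomial.induction_on with
    | C a => rw [jo_C, Derivation.map_algebraMap, Derivation.map_algebraMap]
    | add p q hp hq => rw [map_add, map_add, map_add, hp, hq]
    | mul_X p j hp =>
      rw [map_mul, Derivation.leibniz, Derivation.leibniz, hp]
      have := h j
      rw [xx] at this
      rw [this]
  ext f
  obtain ⟨a, b, hb, rfl⟩ := exists_frac Q2 f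
  rw [← jo_apply, ← jo_apply, Derivation.leibniz_div, Derivation.leibniz_div, h1, h1]

/-- The polynomial ring as a subalgebra of the function field. -/
noncomputable def QK : Subalgebra ℂ K2 := jo.range

theorem mem_QK {f : K2} : f ∈ QK ↔ ∃ q, jo q = f := AlgHom.mem_range jo

theorem jo_mem (q : Q2) : jo q ∈ QK := mem_QK.2 ⟨q, rfl⟩

theorem xx_mem (i : Fin 2) : xx i ∈ QK := jo_mem _

theorem der_mem_QK {D : Derivation ℂ K2 K2} (h : ∀ i, D (xx i) ∈ QK) {f : K2} (hf : f ∈ QK) :
    D f ∈ QK := by
  obtain ⟨q, rfl⟩ := mem_QK.1 hf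
  clear hf
  induction q using MvPolynomial.induction_on with
  | C a => rw [jo_C, Derivation.map_algebraMap]; exact zero_mem _
  | add p q hp hq => rw [map_add, map_add]; exact add_mem hp hq
  | mul_X p j hp =>
    rw [map_mul, Derivation.leibniz]
    exact add_mem (mul_mem (jo_mem _) (h j)) (mul_mem (jo_mem _) hp)

theorem algHom_ext2 {L : Type} [Field L] [Algebra ℂ L] {φ ψ : K2 →ₐ[ℂ] L}
    (h : ∀ i, φ (xx i) = ψ (xx i)) : φ = ψ := by
  have h1 : φ.comp jo = ψ.comp jo := by
    apply MvPolynomial.algHom_ext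
    intro i
    exact h i
  refine AlgHom.ext fun f => ?_
  obtain ⟨a, b, hb, rfl⟩ := exists_frac Q2 f
  rw [map_div₀, map_div₀]
  have h2 : ∀ q, φ (algebraMap Q2 K2 q) = ψ (algebraMap Q2 K2 q) := fun q =>
    DFunLike.congr_fun h1 q
  rw [h2, h2]

theorem sum_der_apply {K : Type} [Field K] [Algebra ℂ K] {n : ℕ} (g : Fin n → K)
    (D : Fin n → Derivation ℂ K K) (f : K) : (∑ i, g i • D i) f = ∑ i, g i * D i f := by
  have h : ∀ s : Finset (Fin n), (∑ i ∈ s, g i • D i) f = ∑ i ∈ s, g i * D i f := by
    classical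
    intro s
    induction s using Finset.induction_on with
    | empty => simp
    | insert a s ha ih => rw [Finset.sum_insert ha, Finset.sum_insert ha, Derivation.add_apply, ih,
        Derivation.smul_apply, smul_eq_mul]
  exact h _

theorem algInd_of_log {g : Fin 2 → K2} (hg : ∀ i, g i ≠ 0) (D : Fin 2 → Derivation ℂ K2 K2)
    (hD : ∀ i j, D i (g j) = if i = j then g j else 0) : AlgebraicIndependent ℂ g := by
  apply Pool.Agent.H135R2.VS.algInd_of_der
  intro v
  refine ⟨∑ i, (v i / g i) • D i, fun j => ?_⟩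
  rw [sum_der_apply]
  simp only [hD, mul_ite, mul_zero, Finset.sum_ite_eq', Finset.mem_univ, if_true]
  rw [div_mul_cancel₀ _ (hg j)]

theorem aeval_inj {g : Fin 2 → K2} (h : AlgebraicIndependent ℂ g) :
    Function.Injective (aeval g : Q2 →ₐ[ℂ] K2) := algebraicIndependent_iff_injective_aeval.1 h

/-- The endomorphism of the function field with prescribed values. -/
noncomputable def hom (g : Fin 2 → K2) (h : AlgebraicIndependent ℂ g) : K2 →ₐ[ℂ] K2 :=
  IsFractionRing.liftAlgHom (A := Q2) (g := aeval g) (aeval_inj h)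

theorem hom_xx (g : Fin 2 → K2) (h : AlgebraicIndependent ℂ g) (i : Fin 2) :
    hom g h (xx i) = g i := by
  have h1 : hom g h (algebraMap Q2 K2 (X i)) = aeval g (X i) :=
    IsFractionRing.lift_algebraMap (aeval_inj h) _
  rw [aeval_X] at h1
  exact h1

theorem th_indep : LinearIndependent K2 th := by
  rw [Fintype.linearIndependent_iff]
  intro g hg i
  have h := DFunLike.congr_fun hg (xx i)
  rw [Derivation.coe_zero, Pi.zero_apply, sum_der_apply] at h
  simp only [th_xx, mul_ite, mul_zero, Finset.sum_ite_eq', Finset.mem_univ, if_true] at h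
  exact (mul_eq_zero.1 h).resolve_right (xx_ne i)

theorem der_eq_sum (D : Derivation ℂ K2 K2) : D = ∑ i, (D (xx i) / xx i) • th i := by
  apply der_ext2
  intro j
  rw [sum_der_apply]
  simp only [th_xx, mul_ite, mul_zero, Finset.sum_ite_eq', Finset.mem_univ, if_true]
  rw [div_mul_cancel₀ _ (xx_ne j)]

theorem span_th : Submodule.span K2 (Set.range th) = ⊤ := by
  rw [eq_top_iff]
  intro D _
  rw [der_eq_sum D]
  exact Submodule.sum_mem _ fun i _ => Submodule.smul_mem _ _ (Submodule.subset_span ⟨i, rfl⟩)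

theorem trdeg_K2 : Algebra.trdeg ℂ K2 = 2 := by
  have h1 : Algebra.IsAlgebraic Q2 K2 := IsLocalization.isAlgebraic _ (nonZeroDivisors Q2)
  have h2 := _root_.trdeg_add_eq ℂ Q2 (A := K2)
  rw [← h2, MvPolynomial.trdeg_of_isDomain, _root_.trdeg_eq_zero]
  simp

/-- The variables, for short. -/
noncomputable def s : K2 := xx 0
noncomputable def y : K2 := xx 1

theorem s_ne : s ≠ 0 := xx_ne 0
theorem y_ne : y ≠ 0 := xx_ne 1

theorem th0_s : th 0 s = s := by rw [s, th_xx, if_pos rfl]
theorem th0_y : th 0 y = 0 := by rw [y, th_xx, if_neg (by decide)]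
theorem th1_s : th 1 s = 0 := by rw [s, th_xx, if_neg (by decide)]
theorem th1_y : th 1 y = y := by rw [y, th_xx, if_pos rfl]

/-- The coordinates of the charts. -/
noncomputable def g0 : Fin 2 → K2 := ![s, y / s]
noncomputable def g0' : Fin 2 → K2 := ![s, y * s]
noncomputable def g1 : Fin 2 → K2 := ![s / y, y]
noncomputable def g1' : Fin 2 → K2 := ![s * y, y]
noncomputable def g2 : Fin 2 → K2 := ![s, y⁻¹]

theorem ind0 : AlgebraicIndependent ℂ g0 := by
  have hs := s_ne
  have hy := y_ne
  refine algInd_of_log (g := g0) ?_ ![th 0 + th 1, th 1] ?_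
  · intro i; fin_cases i
    · exact hs
    · exact div_ne_zero hy hs
  · intro i j
    fin_cases i <;> fin_cases j <;>
      simp [g0, th0_s, th0_y, th1_s, th1_y, Derivation.leibniz_div] <;> field_simp <;> ring_nf <;>
      simp

theorem ind0' : AlgebraicIndependent ℂ g0' := by
  have hs := s_ne
  have hy := y_ne
  refine algInd_of_log (g := g0') ?_ ![th 0 - th 1, th 1] ?_
  · intro i; fin_cases i
    · exact hs
    · exact mul_ne_zero hy hs
  · intro i j
    fin_cases i <;> fin_cases j <;>
      simp [g0', th0_s, th0_y, th1_s, th1_y] <;> ring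

theorem ind1 : AlgebraicIndependent ℂ g1 := by
  have hs := s_ne
  have hy := y_ne
  refine algInd_of_log (g := g1) ?_ ![th 0, th 0 + th 1] ?_
  · intro i; fin_cases i
    · exact div_ne_zero hs hy
    · exact hy
  · intro i j
    fin_cases i <;> fin_cases j <;>
      simp [g1, th0_s, th0_y, th1_s, th1_y, Derivation.leibniz_div] <;> field_simp <;> ring_nf <;>
      simp

theorem ind1' : AlgebraicIndependent ℂ g1' := by
  have hs := s_ne
  have hy := y_ne
  refine algInd_of_log (g := g1') ?_ ![th 0, th 1 - th 0] ?_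
  · intro i; fin_cases i
    · exact mul_ne_zero hs hy
    · exact hy
  · intro i j
    fin_cases i <;> fin_cases j <;>
      simp [g1', th0_s, th0_y, th1_s, th1_y] <;> ring

theorem ind2 : AlgebraicIndependent ℂ g2 := by
  have hs := s_ne
  have hy := y_ne
  refine algInd_of_log (g := g2) ?_ ![th 0, -th 1] ?_
  · intro i; fin_cases i
    · exact hs
    · exact inv_ne_zero hy
  · intro i j
    fin_cases i <;> fin_cases j <;>
      simp [g2, th0_s, th0_y, th1_s, th1_y, Derivation.leibniz_inv] <;> field_simp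

end Pool.Agent.H436R3.Adj
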