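import Mathlib
import Pool.Agent.H436R3.Adj.Field
import Pool.Agent.H436R3.Adj.Defs

/-!
# Monomial automorphisms and charts
-/

set_option autoImplicit false

namespace Pool.Agent.H436R3.Adj

open MvPolynomial Pool.Agent.H436R3.Fol

theorem hom_comp_eq {g g' : Fin 2 → K2} (h : AlgebraicIndependent ℂ g)
    (h' : AlgebraicIndependent ℂ g') (H : ∀ i, hom g h (g' i) = xx i) :
    (hom g h).comp (hom g' h') = AlgHom.id ℂ K2 := by
  apply algHom_ext2
  intro i
  rw [AlgHom.comp_apply, hom_xx, H]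
  rfl

theorem g0_s : hom g0 ind0 s = s := hom_xx g0 ind0 0
theorem g0_y : hom g0 ind0 y = y / s := hom_xx g0 ind0 1
theorem g0'_s : hom g0' ind0' s = s := hom_xx g0' ind0' 0
theorem g0'_y : hom g0' ind0' y = y * s := hom_xx g0' ind0' 1
theorem g1_s : hom g1 ind1 s = s / y := hom_xx g1 ind1 0
theorem g1_y : hom g1 ind1 y = y := hom_xx g1 ind1 1
theorem g1'_s : hom g1' ind1' s = s * y := hom_xx g1' ind1' 0
theorem g1'_y : hom g1' ind1' y = y := hom_xx g1' ind1' 1
theorem g2_s : hom g2 ind2 s = s := hom_xx g2 ind2 0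
theorem g2_y : hom g2 ind2 y = y⁻¹ := hom_xx g2 ind2 1

/-- The automorphisms of the charts. -/
noncomputable def τ0 : K2 ≃ₐ[ℂ] K2 :=
  AlgEquiv.ofAlgHom (hom g0 ind0) (hom g0' ind0')
    (hom_comp_eq _ _ (by
      have := s_ne
      intro i; fin_cases i
      · exact g0_s
      · change hom g0 ind0 (y * s) = y
        rw [map_mul, g0_s, g0_y]; field_simp))
    (hom_comp_eq _ _ (by
      have := s_ne
      intro i; fin_cases i
      · exact g0'_s
      · change hom g0' ind0' (y / s) = y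
        rw [map_div₀, g0'_s, g0'_y]; field_simp))

noncomputable def τ1 : K2 ≃ₐ[ℂ] K2 :=
  AlgEquiv.ofAlgHom (hom g1 ind1) (hom g1' ind1')
    (hom_comp_eq _ _ (by
      have := y_ne
      intro i; fin_cases i
      · change hom g1 ind1 (s * y) = s
        rw [map_mul, g1_s, g1_y]; field_simp
      · exact g1_y))
    (hom_comp_eq _ _ (by
      have := y_ne
      intro i; fin_cases i
      · change hom g1' ind1' (s / y) = s
        rw [map_div₀, g1'_s, g1'_y]; field_simp
      · exact g1'_y))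

noncomputable def τ2 : K2 ≃ₐ[ℂ] K2 :=
  AlgEquiv.ofAlgHom (hom g2 ind2) (hom g2 ind2)
    (hom_comp_eq _ _ (by
      intro i; fin_cases i
      · exact g2_s
      · change hom g2 ind2 (y⁻¹) = y
        rw [map_inv₀, g2_y, inv_inv]))
    (hom_comp_eq _ _ (by
      intro i; fin_cases i
      · exact g2_s
      · change hom g2 ind2 (y⁻¹) = y
        rw [map_inv₀, g2_y, inv_inv]))

theorem τ0_s : τ0 s = s := g0_s
theorem τ0_y : τ0 y = y / s := g0_y
theorem τ0s_s : τ0.symm s = s := g0'_s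
theorem τ0s_y : τ0.symm y = y * s := g0'_y
theorem τ1_s : τ1 s = s / y := g1_s
theorem τ1_y : τ1 y = y := g1_y
theorem τ1s_s : τ1.symm s = s * y := g1'_s
theorem τ1s_y : τ1.symm y = y := g1'_y
theorem τ2_s : τ2 s = s := g2_s
theorem τ2_y : τ2 y = y⁻¹ := g2_y
theorem τ2s_s : τ2.symm s = s := g2_s
theorem τ2s_y : τ2.symm y = y⁻¹ := g2_y

section general

variable (τ : K2 ≃ₐ[ℂ] K2) {v w : DVal K2}

/-- The coordinate ring of a chart. -/
noncomputable def RR : Subalgebra ℂ K2 := QK.comap (τ.symm : K2 →ₐ[ℂ] K2)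

theorem mem_RR {f : K2} : f ∈ RR τ ↔ τ.symm f ∈ QK := Subalgebra.mem_comap _ _ _

/-- The pull-back of a divisor. -/
noncomputable def pull (v : DVal K2) : DVal K2 where
  ord f := v.ord (τ f)
  map_mul f g hf hg := by
    rw [map_mul]
    exact v.map_mul _ _ ((map_ne_zero _).2 hf) ((map_ne_zero _).2 hg)
  map_add f g hf hg hfg := by
    rw [map_add]
    refine v.map_add _ _ ((map_ne_zero _).2 hf) ((map_ne_zero _).2 hg) ?_
    rw [← map_add]
    exact (map_ne_zero _).2 hfg
  surj := by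
    obtain ⟨f, hf, h⟩ := v.surj
    refine ⟨τ.symm f, (map_ne_zero _).2 hf, ?_⟩
    rw [AlgEquiv.apply_symm_apply]
    exact h
  const c hc := by
    rw [AlgEquiv.commutes]
    exact v.const c hc

theorem pull_ord (f : K2) : (pull τ v).ord f = v.ord (τ f) := rfl

theorem pull_reg (f : K2) : (pull τ v).Reg f ↔ v.Reg (τ f) := by
  unfold DVal.Reg
  rw [pull_ord, map_eq_zero]

theorem pull_pos (f : K2) : (pull τ v).Pos f ↔ v.Pos (τ f) := by
  unfold DVal.Pos
  rw [pull_ord, map_eq_zero]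

theorem pull_pull (f : K2) : (pull τ (pull τ.symm v)).ord f = v.ord f := by
  rw [pull_ord, pull_ord, AlgEquiv.symm_apply_apply]

/-- Divisors on a chart correspond to divisors on the plane. -/
theorem pull_divisor (hv : IsLocalRing' (RR τ) v) : IsLocalRing' QK (pull τ v) := by
  refine ⟨fun f hf => ?_, fun f hf => ?_⟩
  · rw [pull_reg]
    exact hv.1 _ (by rw [mem_RR, AlgEquiv.symm_apply_apply]; exact hf)
  · rw [pull_reg] at hf
    obtain ⟨a, b, ha, hb, hb0, hob, hab⟩ := hv.2 _ hf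
    refine ⟨τ.symm a, τ.symm b, (mem_RR τ).1 ha, (mem_RR τ).1 hb, (map_ne_zero _).2 hb0, ?_, ?_⟩
    · rw [pull_ord, AlgEquiv.apply_symm_apply]
      exact hob
    · rw [← hab, map_mul, AlgEquiv.symm_apply_apply]

theorem push_divisor (hv : IsLocalRing' QK v) : IsLocalRing' (RR τ) (pull τ.symm v) := by
  refine ⟨fun f hf => ?_, fun f hf => ?_⟩
  · rw [pull_reg]
    exact hv.1 _ ((mem_RR τ).1 hf)
  · rw [pull_reg] at hf
    obtain ⟨a, b, ha, hb, hb0, hob, hab⟩ := hv.2 _ hf
    refine ⟨τ a, τ b, ?_, ?_, (map_ne_zero _).2 hb0, ?_, ?_⟩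
    · rw [mem_RR, AlgEquiv.symm_apply_apply]; exact ha
    · rw [mem_RR, AlgEquiv.symm_apply_apply]; exact hb
    · rw [pull_ord, AlgEquiv.symm_apply_apply]
      exact hob
    · rw [← hab, map_mul, AlgEquiv.apply_symm_apply]

/-- Integral elements over a ring mapping into the polynomial ring are polynomials. -/
theorem mem_QK_of_integral {S : Type} [CommRing S] (φ : S →+* K2) (hφ : ∀ s, φ s ∈ QK)
    {p : Polynomial S} (hp : p.Monic) {g : K2} (hg : p.eval₂ φ g = 0) : g ∈ QK := by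
  let e : Q2 ≃ₐ[ℂ] jo.range := AlgEquiv.ofInjective jo jo_inj
  let ψ : S →+* jo.range := φ.codRestrict jo.range hφ
  let θ : S →+* Q2 := (e.symm : jo.range →+* Q2).comp ψ
  have hθ : (algebraMap Q2 K2).comp θ = φ := by
    ext s
    have h1 : jo (e.symm (ψ s)) = (e (e.symm (ψ s)) : K2) := rfl
    rw [AlgEquiv.apply_symm_apply] at h1
    exact h1
  have h2 : IsIntegral Q2 g := by
    refine ⟨p.map θ, hp.map _, ?_⟩
    rw [Polynomial.eval₂_map, hθ]
    exact hg
  obtain ⟨q, hq⟩ := IsIntegrallyClosed.algebraMap_eq_of_integral h2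
  exact mem_QK.2 ⟨q, hq⟩

theorem RR_normal (f : K2) (hf : IsIntegral (RR τ) f) : f ∈ RR τ := by
  obtain ⟨p, hp, h0⟩ := hf
  rw [mem_RR]
  refine mem_QK_of_integral ((τ.symm : K2 →+* K2).comp (algebraMap (RR τ) K2))
    (fun s => (mem_RR τ).1 s.2) hp ?_
  have h1 : (τ.symm : K2 →+* K2) (p.eval₂ (algebraMap (RR τ) K2) f) = 0 := by
    rw [h0, map_zero]
  rw [Polynomial.hom_eval₂] at h1
  exact h1

theorem RR_frac (f : K2) : ∃ a b : K2, a ∈ RR τ ∧ b ∈ RR τ ∧ b ≠ 0 ∧ f * b = a := by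
  obtain ⟨p, q, hq, hf⟩ := exists_frac Q2 (τ.symm f)
  have hq' : jo q ≠ 0 := (map_ne_zero_iff jo jo_inj).2 hq
  refine ⟨τ (jo p), τ (jo q), ?_, ?_, (map_ne_zero _).2 hq', ?_⟩
  · rw [mem_RR, AlgEquiv.symm_apply_apply]; exact jo_mem p
  · rw [mem_RR, AlgEquiv.symm_apply_apply]; exact jo_mem q
  · apply τ.symm.injective
    rw [map_mul, AlgEquiv.symm_apply_apply, AlgEquiv.symm_apply_apply, hf, ← jo_apply, ← jo_apply]
    field_simp

/-- The chart ring is generated by the images of the variables. -/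
theorem RR_le {S : Subalgebra ℂ K2} (h : ∀ i, τ (xx i) ∈ S) : RR τ ≤ S := by
  intro f hf
  obtain ⟨q, hq⟩ := mem_QK.1 ((mem_RR τ).1 hf)
  have h1 : f = τ (jo q) := by rw [hq, AlgEquiv.apply_symm_apply]
  rw [h1]
  clear h1 hq hf
  induction q using MvPolynomial.induction_on with
  | C a => rw [jo_C, AlgEquiv.commutes]; exact Subalgebra.algebraMap_mem _ _
  | add p q hp hq => rw [map_add, map_add]; exact add_mem hp hq
  | mul_X p j hp => rw [map_mul, map_mul]; exact mul_mem hp (h j)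

end general

/-- The coordinate ring of the base. -/
noncomputable def A0 : Subalgebra ℂ K2 := Algebra.adjoin ℂ {s}

/-- The projective coordinates. -/
noncomputable def yy : Fin 3 → K2 := ![s, y, y ^ 2]

theorem s_A0 : s ∈ A0 := Algebra.subset_adjoin rfl

theorem A0_le {S : Subalgebra ℂ K2} (h : s ∈ S) : A0 ≤ S := by
  rw [A0, Algebra.adjoin_le_iff, Set.singleton_subset_iff]
  exact h

theorem chart_eq {τ : K2 ≃ₐ[ℂ] K2} {i : Fin 3} (hs : s ∈ RR τ) (h1 : ∀ j, yy j / yy i ∈ RR τ)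
    (h2 : ∀ j, τ (xx j) ∈ chartOf A0 yy i) : chartOf A0 yy i = RR τ := by
  apply le_antisymm
  · rw [chartOf, sup_le_iff]
    refine ⟨A0_le hs, ?_⟩
    rw [Algebra.adjoin_le_iff]
    rintro _ ⟨j, rfl⟩
    exact h1 j
  · exact RR_le τ h2

theorem s_chart (i : Fin 3) : s ∈ chartOf A0 yy i := le_sup_left (a := A0) s_A0

theorem ratio_chart (i j : Fin 3) : yy j / yy i ∈ chartOf A0 yy i :=
  (le_sup_right : Algebra.adjoin ℂ (Set.range fun j => yy j / yy i) ≤ chartOf A0 yy i)
    (Algebra.subset_adjoin ⟨j, rfl⟩)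

theorem s_mem : s ∈ QK := xx_mem 0
theorem y_mem : y ∈ QK := xx_mem 1

theorem chart0 : chartOf A0 yy 0 = RR τ0 := by
  have hs := s_ne
  have hy := y_ne
  refine chart_eq ?_ ?_ ?_
  · rw [mem_RR, τ0s_s]; exact s_mem
  · intro j
    rw [mem_RR]
    fin_cases j
    · change τ0.symm (s / s) ∈ QK
      rw [div_self hs, map_one]
      exact one_mem _
    · change τ0.symm (y / s) ∈ QK
      rw [map_div₀, τ0s_y, τ0s_s, mul_div_cancel_right₀ _ hs]
      exact y_mem
    · change τ0.symm (y ^ 2 / s) ∈ QK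
      rw [map_div₀, map_pow, τ0s_y, τ0s_s]
      have : (y * s) ^ 2 / s = y ^ 2 * s := by field_simp
      rw [this]
      exact mul_mem (pow_mem y_mem _) s_mem
  · intro j
    fin_cases j
    · change τ0 s ∈ chartOf A0 yy 0
      rw [τ0_s]
      exact s_chart 0
    · change τ0 y ∈ chartOf A0 yy 0
      rw [τ0_y]
      exact ratio_chart 0 1

theorem chart1 : chartOf A0 yy 1 = RR τ1 := by
  have hs := s_ne
  have hy := y_ne
  refine chart_eq ?_ ?_ ?_
  · rw [mem_RR, τ1s_s]; exact mul_mem s_mem y_mem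
  · intro j
    rw [mem_RR]
    fin_cases j
    · change τ1.symm (s / y) ∈ QK
      rw [map_div₀, τ1s_y, τ1s_s, mul_div_cancel_right₀ _ hy]
      exact s_mem
    · change τ1.symm (y / y) ∈ QK
      rw [div_self hy, map_one]
      exact one_mem _
    · change τ1.symm (y ^ 2 / y) ∈ QK
      rw [map_div₀, map_pow, τ1s_y]
      have : y ^ 2 / y = y := by field_simp
      rw [this]
      exact y_mem
  · intro j
    fin_cases j
    · change τ1 s ∈ chartOf A0 yy 1
      rw [τ1_s]
      exact ratio_chart 1 0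
    · change τ1 y ∈ chartOf A0 yy 1
      rw [τ1_y]
      have := ratio_chart 1 2
      have h2 : yy 2 / yy 1 = y := by
        change y ^ 2 / y = y
        field_simp
      rwa [h2] at this

theorem chart2 : chartOf A0 yy 2 = RR τ2 := by
  have hs := s_ne
  have hy := y_ne
  refine chart_eq ?_ ?_ ?_
  · rw [mem_RR, τ2s_s]; exact s_mem
  · intro j
    rw [mem_RR]
    fin_cases j
    · change τ2.symm (s / y ^ 2) ∈ QK
      rw [map_div₀, map_pow, τ2s_y, τ2s_s]
      have : s / y⁻¹ ^ 2 = s * y ^ 2 := by field_simp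
      rw [this]
      exact mul_mem s_mem (pow_mem y_mem _)
    · change τ2.symm (y / y ^ 2) ∈ QK
      rw [map_div₀, map_pow, τ2s_y]
      have : y⁻¹ / y⁻¹ ^ 2 = y := by field_simp
      rw [this]
      exact y_mem
    · change τ2.symm (y ^ 2 / y ^ 2) ∈ QK
      rw [div_self (pow_ne_zero _ hy), map_one]
      exact one_mem _
  · intro j
    fin_cases j
    · change τ2 s ∈ chartOf A0 yy 2
      rw [τ2_s]
      exact s_chart 2
    · change τ2 y ∈ chartOf A0 yy 2
      rw [τ2_y]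
      have := ratio_chart 2 1
      have h2 : yy 1 / yy 2 = y⁻¹ := by
        change y / y ^ 2 = y⁻¹
        field_simp
      rwa [h2] at this

end Pool.Agent.H436R3.Adj
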