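import Mathlib
import Pool.Agent.H436R3.Adj.Charts

/-!
# The contraction
-/

set_option autoImplicit false

namespace Pool.Agent.H436R3.Adj

open MvPolynomial Pool.Agent.H436R3.Fol

theorem jo_monomial (m : Fin 2 →₀ ℕ) (c : ℂ) :
    jo (monomial m c) = algebraMap ℂ K2 c * (s ^ m 0 * y ^ m 1) := by
  rw [monomial_eq, map_mul, Finsupp.prod_fintype _ _ (by simp), Fin.prod_univ_two]
  simp only [map_mul, map_pow]
  rw [jo_C]
  rfl

theorem jo_sum (q : Q2) : jo q = ∑ m ∈ q.support, jo (monomial m (q.coeff m)) := by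
  conv_lhs => rw [q.as_sum]
  rw [map_sum]

/-- The polynomial with modified exponents. -/
noncomputable def tw (e : (Fin 2 →₀ ℕ) → (Fin 2 →₀ ℕ)) (q : Q2) : Q2 :=
  ∑ m ∈ q.support, monomial (e m) (q.coeff m)

/-- A pair of exponents. -/
noncomputable def pr (a b : ℕ) : Fin 2 →₀ ℕ := Finsupp.equivFunOnFinite.symm ![a, b]

theorem pr_zero (a b : ℕ) : pr a b 0 = a := rfl
theorem pr_one (a b : ℕ) : pr a b 1 = b := rfl

theorem jo_tw2 {N : ℕ} {q : Q2} (hN : ∀ m ∈ q.support, m 1 ≤ N) :
    jo (tw (fun m => pr (m 0 + N) (N - m 1)) q) = s ^ N * y ^ N * τ2 (jo q) := by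
  rw [jo_sum q, map_sum, Finset.mul_sum, tw, map_sum]
  refine Finset.sum_congr rfl fun m hm => ?_
  rw [jo_monomial, jo_monomial, pr_zero, pr_one, map_mul, map_mul, map_pow, map_pow, τ2_s, τ2_y,
    AlgEquiv.commutes, pow_sub₀ _ y_ne (hN m hm), pow_add]
  ring

theorem jo_tw0 {N : ℕ} {q : Q2} (hN : ∀ m ∈ q.support, m 1 ≤ N) :
    jo (tw (fun m => pr (m 0 + (N - m 1)) (m 1 + N)) q) = s ^ N * y ^ N * τ0 (jo q) := by
  have hs := s_ne
  rw [jo_sum q, map_sum, Finset.mul_sum, tw, map_sum]
  refine Finset.sum_congr rfl fun m hm => ?_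
  rw [jo_monomial, jo_monomial, pr_zero, pr_one, map_mul, map_mul, map_pow, map_pow, τ0_s, τ0_y,
    AlgEquiv.commutes, pow_add, pow_sub₀ _ s_ne (hN m hm), pow_add, div_pow]
  field_simp

theorem exists_bound (q : Q2) : ∃ N : ℕ, ∀ m ∈ q.support, m 1 ≤ N :=
  ⟨q.support.sup fun m => m 1, fun _ hm => Finset.le_sup (f := fun m => m 1) hm⟩

theorem mem_A0 {f : K2} (h0 : f ∈ RR τ0) (h2 : f ∈ RR τ2) : f ∈ A0 := by
  obtain ⟨r, hr⟩ := mem_QK.1 ((mem_RR τ0).1 h0)
  obtain ⟨q, hq⟩ := mem_QK.1 ((mem_RR τ2).1 h2)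
  have hr' : f = τ0 (jo r) := by rw [hr, AlgEquiv.apply_symm_apply]
  have hq' : f = τ2 (jo q) := by rw [hq, AlgEquiv.apply_symm_apply]
  obtain ⟨N1, hN1⟩ := exists_bound r
  obtain ⟨N2, hN2⟩ := exists_bound q
  have hr2 := jo_tw0 (N := N1 + N2) (q := r) fun m hm => (hN1 m hm).trans (Nat.le_add_right _ _)
  have hq2 := jo_tw2 (N := N1 + N2) (q := q) fun m hm => (hN2 m hm).trans (Nat.le_add_left _ _)
  rw [← hr'] at hr2
  rw [← hq', ← hr2] at hq2
  have h3 := (jo_inj hq2).symm
  have h4 : ∀ m ∈ q.support, m 1 = 0 := by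
    intro m hm
    by_contra hne
    have h5 : (tw (fun m => pr (m 0 + (N1 + N2)) (N1 + N2 - m 1)) q).coeff
        (pr (m 0 + (N1 + N2)) (N1 + N2 - m 1)) = q.coeff m := by
      classical
      rw [tw, coeff_sum]
      simp only [coeff_monomial]
      rw [Finset.sum_eq_single m]
      · rw [if_pos rfl]
      · intro m' hm' hne'
        rw [if_neg]
        intro he
        apply hne'
        have e0 := DFunLike.congr_fun he 0
        have e1 := DFunLike.congr_fun he 1
        rw [pr_zero, pr_zero] at e0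
        rw [pr_one, pr_one] at e1
        have b1 := hN2 m hm
        have b2 := hN2 m' hm'
        ext i
        fin_cases i
        · change m' 0 = m 0
          omega
        · change m' 1 = m 1
          omega
      · intro h'
        exact absurd hm h'
    have h6 : (tw (fun m => pr (m 0 + (N1 + N2 - m 1)) (m 1 + (N1 + N2))) r).coeff
        (pr (m 0 + (N1 + N2)) (N1 + N2 - m 1)) = 0 := by
      classical
      rw [tw, coeff_sum]
      simp only [coeff_monomial]
      apply Finset.sum_eq_zero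
      intro m' hm'
      rw [if_neg]
      intro he
      have e1 := DFunLike.congr_fun he 1
      rw [pr_one, pr_one] at e1
      have b1 := hN2 m hm
      omega
    rw [h3, h5] at h6
    exact (mem_support_iff.1 hm) h6
  rw [hq', jo_sum q, map_sum]
  refine sum_mem fun m hm => ?_
  rw [jo_monomial, h4 m hm, pow_zero, mul_one, map_mul, map_pow, τ2_s, AlgEquiv.commutes]
  exact mul_mem (Subalgebra.algebraMap_mem _ _) (pow_mem s_A0 _)

theorem yy_ne (i : Fin 3) : yy i ≠ 0 := by
  fin_cases i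
  · exact s_ne
  · exact y_ne
  · exact pow_ne_zero _ y_ne

/-- The automorphisms of the charts. -/
noncomputable def τ (i : Fin 3) : K2 ≃ₐ[ℂ] K2 := ![τ0, τ1, τ2] i

theorem chartOf_eq (i : Fin 3) : chartOf A0 yy i = RR (τ i) := by
  fin_cases i
  · exact chart0
  · exact chart1
  · exact chart2

/-- The blow-up of the product of the affine line and the projective line at the point `s = y = 0`,
with its projection to the affine line. -/
noncomputable def XX : Contraction K2 where
  A := A0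
  fg := ⟨{s}, by rw [Finset.coe_singleton]; rfl⟩
  n := 2
  y := yy
  ne := yy_ne
  frac := by
    intro f
    obtain ⟨a, b, ha, hb, hb0, h⟩ := RR_frac τ0 f
    rw [← chart0] at ha hb
    exact ⟨a, b, ha, hb, hb0, h⟩
  normal := by
    intro i f hf
    rw [chartOf_eq] at hf ⊢
    exact RR_normal _ f hf
  global := by
    intro f hf
    have h0 := hf 0
    have h2 := hf 2
    rw [chartOf_eq] at h0 h2
    exact mem_A0 h0 h2

theorem XX_chart (i : Fin 3) : XX.chart i = RR (τ i) := chartOf_eq i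

end Pool.Agent.H436R3.Adj
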